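import Pool.Agent.Helper86.HDSupport

namespace Pool.Agent.Results.MP_973d57_co.HermitianDelta

open Pool.Agent.Helper86.HD

theorem result {K V : Type*} [Field K] [StarRing K] [AddCommGroup V] [Module K V]
    (ν : AddValuation K (WithTop ℝ)) (hν : ∀ a : K, ν (star a) = ν a) {n : ℕ}
    (b : V →ₗ[K] V →ₛₗ[starRingEnd K] K) (hb : ∀ x y, b x y = star (b y x))
    (β : Module.Basis (Fin n ⊕ Fin n ⊕ Unit) K V)
    (hee : ∀ i j, b (β (Sum.inl i)) (β (Sum.inl j)) = 0)
    (hff : ∀ i j, b (β (Sum.inr (Sum.inl i))) (β (Sum.inr (Sum.inl j))) = 0)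
    (hef : ∀ i j, b (β (Sum.inl i)) (β (Sum.inr (Sum.inl j))) = if i = j then 1 else 0)
    (heg : ∀ i, b (β (Sum.inl i)) (β (Sum.inr (Sum.inr ()))) = 0)
    (hfg : ∀ i, b (β (Sum.inr (Sum.inl i))) (β (Sum.inr (Sum.inr ()))) = 0)
    (hgg : b (β (Sum.inr (Sum.inr ()))) (β (Sum.inr (Sum.inr ()))) ≠ 0)
    (L : Submodule K V) (hL : ∀ x ∈ L, ∀ y ∈ L, b x y = 0)
    (r : Module.Basis (Fin n) K L) (p : Finset (Fin n) → WithTop ℝ)
    (hp : ∀ S : Finset (Fin n), p S = ν (Matrix.det (Matrix.of fun i j => if j ∈ S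
      then β.repr (r i : V) (Sum.inl j) else β.repr (r i : V) (Sum.inr (Sum.inl j))))) :
    IsValuatedDeltaMatroid p ∧ ∃ S, p S ≠ ⊤ := by
  constructor
  · intro x y hxy
    obtain ⟨w, S, T, s, t, hS, hT, hne, ⟨c, hc⟩, hST, hU⟩ := edge_data hxy
    have hcard : (symmDiff S T).card ≤ 2 := by
      refine small_symmDiff ν hν
        (Matrix.of fun i j => β.repr (r i : V) (Sum.inl j))
        (Matrix.of fun i j => β.repr (r i : V) (Sum.inr (Sum.inl j)))
        (fun i => β.repr (r i : V) (Sum.inr (Sum.inr ())))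
        (b (β (Sum.inr (Sum.inr ()))) (β (Sum.inr (Sum.inr ())))) ?_ p hp w S T s t hS hT hST hU
      intro i j
      have h0 := form_coords b hb β hee hff hef heg hfg (r i : V) (r j : V)
      rw [hL _ (r i).2 _ (r j).2] at h0
      exact h0.symm
    rcases direction S T hne hcard with ⟨i, d, hd⟩ | ⟨i, j, hij, d, hd⟩
    · left
      exact ⟨i, c * d, by rw [hc, hd, smul_smul]⟩
    · right
      refine ⟨i, j, hij, c * d, ?_⟩
      rcases hd with hd | hd
      · left
        rw [hc, hd, smul_smul]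
      · right
        rw [hc, hd, smul_smul]
  · obtain ⟨S, hS⟩ := exists_minor b hb β hee hff hef heg hfg hgg L hL r
    refine ⟨S, ?_⟩
    rw [hp]
    intro h
    exact hS ((AddValuation.top_iff ν).mp h)

end Pool.Agent.Results.MP_973d57_co.HermitianDelta
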